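import Mathlib

/-!
# Universal BPBp-RSE domains are universal BPBp-ASE domains

Given `T : X → Z` of norm one, apply the BPBp-RSE of the pair `(X, Z ⊕_∞ X)` to the operator
`x ↦ (T x, x / 2)`. The second coordinate of the operator obtained in this way has norm less than
one and is bounded below, which makes the first coordinate absolutely strongly exposing.
-/

set_option autoImplicit false

namespace Pool.Agent.Results.MP_2e9c83_an.RSEImpliesASE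

open Filter Topology

universe u

section Defs

variable (𝕜 : Type) [RCLike 𝕜]
variable {X : Type u} [NormedAddCommGroup X] [NormedSpace 𝕜 X]
variable {Y : Type u} [NormedAddCommGroup Y] [NormedSpace 𝕜 Y]

/-- `T` is absolutely strongly exposing. -/
def IsASE (T : X →L[𝕜] Y) : Prop :=
  ∃ x₀ : X, ‖x₀‖ = 1 ∧ ∀ x : ℕ → X, (∀ n, ‖x n‖ ≤ 1) →
    Tendsto (fun n => ‖T (x n)‖) atTop (𝓝 ‖T‖) →
    ∃ σ : ℕ → ℕ, StrictMono σ ∧ ∃ c : 𝕜, ‖c‖ = 1 ∧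
      Tendsto (fun n => x (σ n)) atTop (𝓝 (c • x₀))

/-- `T` is range strongly exposing. -/
def IsRSE (T : X →L[𝕜] Y) : Prop :=
  ∃ x₀ : X, ‖x₀‖ = 1 ∧ ∀ x : ℕ → X, (∀ n, ‖x n‖ ≤ 1) →
    Tendsto (fun n => ‖T (x n)‖) atTop (𝓝 ‖T‖) →
    ∃ σ : ℕ → ℕ, StrictMono σ ∧ ∃ c : 𝕜, ‖c‖ = 1 ∧
      Tendsto (fun n => T (x (σ n))) atTop (𝓝 (c • T x₀))

variable (X Y)

/-- The pair `(X, Y)` has the BPBp-RSE. -/
def BPBpRSE : Prop :=
  ∀ ε : ℝ, 0 < ε → ∃ η : ℝ, 0 < η ∧ η < ε ∧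
    ∀ T : X →L[𝕜] Y, ‖T‖ = 1 → ∀ x : X, ‖x‖ = 1 → 1 - η < ‖T x‖ →
      ∃ (S : X →L[𝕜] Y) (x₀ : X), IsRSE 𝕜 S ∧ ‖x₀‖ = 1 ∧ ‖S‖ = 1 ∧ ‖S x₀‖ = 1 ∧
        ‖S - T‖ < ε ∧ ‖x - x₀‖ < ε

/-- The pair `(X, Y)` has the BPBp-ASE. -/
def BPBpASE : Prop :=
  ∀ ε : ℝ, 0 < ε → ∃ η : ℝ, 0 < η ∧ η < ε ∧
    ∀ T : X →L[𝕜] Y, ‖T‖ = 1 → ∀ x : X, ‖x‖ = 1 → 1 - η < ‖T x‖ →
      ∃ (S : X →L[𝕜] Y) (x₀ : X), IsASE 𝕜 S ∧ ‖x₀‖ = 1 ∧ ‖S‖ = 1 ∧ ‖S x₀‖ = 1 ∧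
        ‖S - T‖ < ε ∧ ‖x - x₀‖ < ε

end Defs

/-- `X` is a universal BPBp-RSE domain. -/
def IsUniversalRSEDomain (𝕜 : Type) [RCLike 𝕜] (X : Type u) [NormedAddCommGroup X]
    [NormedSpace 𝕜 X] : Prop :=
  ∀ (Z : Type u) [NormedAddCommGroup Z] [NormedSpace 𝕜 Z] [CompleteSpace Z], BPBpRSE 𝕜 X Z

/-- `X` is a universal BPBp-ASE domain. -/
def IsUniversalASEDomain (𝕜 : Type) [RCLike 𝕜] (X : Type u) [NormedAddCommGroup X]
    [NormedSpace 𝕜 X] : Prop :=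
  ∀ (Z : Type u) [NormedAddCommGroup Z] [NormedSpace 𝕜 Z] [CompleteSpace Z], BPBpASE 𝕜 X Z

variable {𝕜 : Type} [RCLike 𝕜]
variable {X : Type u} [NormedAddCommGroup X] [NormedSpace 𝕜 X]
variable {Z : Type u} [NormedAddCommGroup Z] [NormedSpace 𝕜 Z]

theorem pair (h : BPBpRSE 𝕜 X (Z × X)) : BPBpASE 𝕜 X Z := by
  intro ε hε
  have hε' : 0 < min ε (1 / 4 : ℝ) := lt_min hε (by norm_num)
  obtain ⟨η, hη, hηε, H⟩ := h (min ε (1 / 4)) hε'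
  refine ⟨η, hη, lt_of_lt_of_le hηε (min_le_left _ _), ?_⟩
  intro T hT x hx hTx
  -- the auxiliary operator
  set J : X →L[𝕜] X := (((1 / 2 : ℝ) : 𝕜)) • ContinuousLinearMap.id 𝕜 X with hJ
  have hJv : ∀ v : X, ‖J v‖ = 1 / 2 * ‖v‖ := by
    intro v
    simp only [hJ, ContinuousLinearMap.smul_apply, ContinuousLinearMap.id_apply, norm_smul]
    rw [RCLike.norm_ofReal, abs_of_pos (by norm_num)]
  set T' : X →L[𝕜] Z × X := T.prod J with hT'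
  have hT'1 : ‖T'‖ = 1 := by
    apply le_antisymm
    · refine ContinuousLinearMap.opNorm_le_bound _ zero_le_one fun v => ?_
      rw [hT', ContinuousLinearMap.prod_apply, Prod.norm_mk]
      refine max_le ?_ ?_
      · have := T.le_opNorm v
        rwa [hT] at this
      · rw [hJv]
        have := norm_nonneg v
        linarith
    · rw [← hT]
      refine ContinuousLinearMap.opNorm_le_bound _ (norm_nonneg _) fun v => ?_
      refine le_trans ?_ (T'.le_opNorm v)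
      rw [hT', ContinuousLinearMap.prod_apply, Prod.norm_mk]
      exact le_max_left _ _
  have hT'x : 1 - η < ‖T' x‖ := by
    refine lt_of_lt_of_le hTx ?_
    rw [hT', ContinuousLinearMap.prod_apply, Prod.norm_mk]
    exact le_max_left _ _
  obtain ⟨S, x₀, ⟨x₁, hx₁, hS⟩, hx₀, hS1, hSx₀, hST, hxx₀⟩ := H T' hT'1 x hx hT'x
  set S1 : X →L[𝕜] Z := (ContinuousLinearMap.fst 𝕜 Z X).comp S with hS1d
  set S2 : X →L[𝕜] X := (ContinuousLinearMap.snd 𝕜 Z X).comp S with hS2d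
  have hSn : ∀ v, ‖S v‖ = max ‖S1 v‖ ‖S2 v‖ := fun v => Prod.norm_def (S v)
  have hdiff : ∀ v, ‖(S - T') v‖ = max ‖S1 v - T v‖ ‖S2 v - J v‖ := fun v => by
    rw [Prod.norm_def]; rfl
  have hlt : ‖S - T'‖ ≤ 1 / 4 := (hST.trans_le (min_le_right _ _)).le
  have hS2J : ∀ v, ‖S2 v - J v‖ ≤ 1 / 4 * ‖v‖ := by
    intro v
    calc ‖S2 v - J v‖ ≤ ‖(S - T') v‖ := by rw [hdiff]; exact le_max_right _ _
      _ ≤ ‖S - T'‖ * ‖v‖ := (S - T').le_opNorm v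
      _ ≤ 1 / 4 * ‖v‖ := by gcongr
  have hlow : ∀ v, ‖v‖ ≤ 4 * ‖S2 v‖ := by
    intro v
    have h1 := hS2J v
    have h2 : ‖J v‖ ≤ ‖S2 v‖ + ‖S2 v - J v‖ := by
      have : J v = S2 v - (S2 v - J v) := by abel
      calc ‖J v‖ = ‖S2 v - (S2 v - J v)‖ := by rw [← this]
        _ ≤ _ := norm_sub_le _ _
    rw [hJv] at h2
    linarith
  have hup : ∀ v, ‖S2 v‖ ≤ 3 / 4 * ‖v‖ := by
    intro v
    have h1 := hS2J v
    have h2 : ‖S2 v‖ ≤ ‖J v‖ + ‖S2 v - J v‖ := by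
      calc ‖S2 v‖ = ‖J v + (S2 v - J v)‖ := by congr 1; abel
        _ ≤ _ := norm_add_le _ _
    rw [hJv] at h2
    linarith
  have hS1le : ∀ v, ‖S1 v‖ ≤ ‖v‖ := by
    intro v
    calc ‖S1 v‖ ≤ ‖S v‖ := by rw [hSn]; exact le_max_left _ _
      _ ≤ ‖S‖ * ‖v‖ := S.le_opNorm v
      _ = ‖v‖ := by rw [hS1, one_mul]
  have hS1x₀ : ‖S1 x₀‖ = 1 := by
    have h1 := hSn x₀
    rw [hSx₀] at h1
    have h2 := hup x₀
    rw [hx₀] at h2
    rcases max_choice ‖S1 x₀‖ ‖S2 x₀‖ with h | h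
    · rw [← h, ← h1]
    · rw [h] at h1; linarith
  have hS1n : ‖S1‖ = 1 := by
    apply le_antisymm
    · exact ContinuousLinearMap.opNorm_le_bound _ zero_le_one fun v => by
        rw [one_mul]; exact hS1le v
    · have := S1.le_opNorm x₀
      rwa [hS1x₀, hx₀, mul_one] at this
  refine ⟨S1, x₀, ⟨x₁, hx₁, ?_⟩, hx₀, hS1n, hS1x₀, ?_, lt_of_lt_of_le hxx₀ (min_le_left _ _)⟩
  · intro y hy hlim
    rw [hS1n] at hlim
    have hSlim : Tendsto (fun n => ‖S (y n)‖) atTop (𝓝 ‖S‖) := by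
      rw [hS1]
      refine tendsto_of_tendsto_of_tendsto_of_le_of_le hlim tendsto_const_nhds ?_ ?_
      · intro n
        show ‖S1 (y n)‖ ≤ ‖S (y n)‖
        rw [hSn]; exact le_max_left _ _
      · intro n
        show ‖S (y n)‖ ≤ 1
        calc ‖S (y n)‖ ≤ ‖S‖ * ‖y n‖ := S.le_opNorm _
          _ ≤ 1 * 1 := by rw [hS1]; gcongr; exact hy n
          _ = 1 := one_mul 1
    obtain ⟨σ, hσ, c, hc, hσc⟩ := hS y hy hSlim
    refine ⟨σ, hσ, c, hc, ?_⟩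
    rw [tendsto_iff_norm_sub_tendsto_zero] at hσc ⊢
    have h4 : Tendsto (fun n => 4 * ‖S (y (σ n)) - c • S x₁‖) atTop (𝓝 (4 * 0)) :=
      hσc.const_mul 4
    rw [mul_zero] at h4
    refine squeeze_zero (fun n => norm_nonneg _) (fun n => ?_) h4
    calc ‖y (σ n) - c • x₁‖ ≤ 4 * ‖S2 (y (σ n) - c • x₁)‖ := hlow _
      _ ≤ 4 * ‖S (y (σ n) - c • x₁)‖ := by
          gcongr
          rw [hSn]; exact le_max_right _ _
      _ = 4 * ‖S (y (σ n)) - c • S x₁‖ := by rw [map_sub, map_smul]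
  · refine lt_of_le_of_lt ?_ (lt_of_lt_of_le hST (min_le_left _ _))
    refine ContinuousLinearMap.opNorm_le_bound _ (norm_nonneg _) fun v => ?_
    calc ‖(S1 - T) v‖ = ‖S1 v - T v‖ := rfl
      _ ≤ ‖(S - T') v‖ := by rw [hdiff]; exact le_max_left _ _
      _ ≤ ‖S - T'‖ * ‖v‖ := (S - T').le_opNorm v

theorem result (𝕜 : Type) [RCLike 𝕜] (X : Type u) [NormedAddCommGroup X] [NormedSpace 𝕜 X]
    [CompleteSpace X] (h : IsUniversalRSEDomain 𝕜 X) : IsUniversalASEDomain 𝕜 X := by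
  intro Z _ _ _
  exact pair (h (Z × X))

end Pool.Agent.Results.MP_2e9c83_an.RSEImpliesASE
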